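import Pool.Agent.LRG.StmtsA

/-!
# LRG, row TRC (helper6): the trace is the sum of the conjugates
-/

set_option autoImplicit false

open Polynomial NumberField

namespace Pool.Agent.LRG.H6

/-- TRC -/
theorem trc : Pool.Agent.LRG.A.TrcStmt := by
  intro K _ _ v E _ _ _
  have h1 : ((Algebra.trace ℤ (𝓞 K) v : ℤ) : ℚ) = Algebra.trace ℚ K (v : K) :=
    Algebra.coe_trace_int v
  have h2 : algebraMap ℚ E (Algebra.trace ℚ K (v : K)) = ∑ σ : K →ₐ[ℚ] E, σ (v : K) :=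
    trace_eq_sum_embeddings E
  have h3 : ∑ σ : K →+* E, σ (v : K) = ∑ σ : K →ₐ[ℚ] E, σ (v : K) :=
    Fintype.sum_equiv (RingHom.equivRatAlgHom K E) _ _ fun σ => rfl
  rw [h3, ← h2, ← h1]
  simp

end Pool.Agent.LRG.H6
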