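import Pool.Agent.LRG.StmtsB2

/-!
# Squad LRG, row DTM (helper6): divisibility of the determinants
-/

set_option autoImplicit false

open Polynomial

namespace Pool.Agent.LRG.H6

/-- The value of a polynomial of bounded degree as a finite sum. -/
theorem pev_eq_sum {A : Type} [CommRing A] {n d : ℕ} (P : (MvPolynomial (Fin n) A)[X])
    (hP : P.degree < (d : ℕ)) (v' : Fin n → A) (y : A) :
    pev P v' y = ∑ j : Fin d, MvPolynomial.eval v' (P.coeff j) * y ^ (j : ℕ) := by
  have key : pev P v' y = ∑ j ∈ Finset.range d, MvPolynomial.eval v' (P.coeff j) * y ^ j := by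
    by_cases h0 : P = 0
    · subst h0
      simp [pev]
    · have h1 : P.natDegree < d := (Polynomial.natDegree_lt_iff_degree_lt h0).mpr hP
      have h2 : (P.map (MvPolynomial.eval v')).natDegree < d :=
        lt_of_le_of_lt Polynomial.natDegree_map_le h1
      unfold pev
      rw [Polynomial.eval_eq_sum_range' h2]
      refine Finset.sum_congr rfl fun j _ => ?_
      rw [Polynomial.coeff_map]
  rw [key, ← Fin.sum_univ_eq_sum_range (fun j => MvPolynomial.eval v' (P.coeff j) * y ^ j) d]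

theorem dtm : DtmStmt := by
  intro hA hX A _ q n d n₀ L c₀ r hr η ξ y b
  choose γ R hγ using fun P : MvPolynomial (Fin n) A => hX A q n c₀ P η
  -- the index set of the rows
  have hcard : Fintype.card (Fin n₀ × Fin d × (Fin n → Fin c₀)) = n₀ * d * c₀ ^ n := by
    simp [Fintype.card_prod, mul_assoc]
  let σ : Fin n₀ × Fin d × (Fin n → Fin c₀) ≃ Fin (n₀ * d * c₀ ^ n) :=
    Fintype.equivFinOfCardEq hcard
  have main := hA A (q ^ c₀) L (n₀ * d * c₀ ^ n)
    (fun a t => γ ((r a (σ.symm t).1).coeff (σ.symm t).2.1) (σ.symm t).2.2)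
    (fun t e => b e (σ.symm t).1 * y e ^ ((σ.symm t).2.1 : ℕ) *
      ∏ i, ξ e i ^ ((σ.symm t).2.2 i : ℕ))
    (fun a e => ∑ l, ∑ j : Fin d, R ((r a l).coeff j) (ξ e) * y e ^ (j : ℕ) * b e l)
  rw [pow_mul]
  have hmat : (Matrix.of fun a e =>
      ∑ l, pev (r a l) (fun i => η i + q * ξ e i) (y e) * b e l) =
      (Matrix.of fun a e => ∑ t, (fun a t => γ ((r a (σ.symm t).1).coeff (σ.symm t).2.1)
        (σ.symm t).2.2) a t * (fun t e => b e (σ.symm t).1 * y e ^ ((σ.symm t).2.1 : ℕ) *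
      ∏ i, ξ e i ^ ((σ.symm t).2.2 i : ℕ)) t e + q ^ c₀ *
        (fun a e => ∑ l, ∑ j : Fin d, R ((r a l).coeff j) (ξ e) * y e ^ (j : ℕ) * b e l) a e) := by
    ext a e
    simp only [Matrix.of_apply]
    have h1 : ∑ t, γ ((r a (σ.symm t).1).coeff (σ.symm t).2.1) (σ.symm t).2.2 *
        (b e (σ.symm t).1 * y e ^ ((σ.symm t).2.1 : ℕ) * ∏ i, ξ e i ^ ((σ.symm t).2.2 i : ℕ)) =
        ∑ l, ∑ j : Fin d, ∑ β : Fin n → Fin c₀, γ ((r a l).coeff j) β *
          (b e l * y e ^ (j : ℕ) * ∏ i, ξ e i ^ (β i : ℕ)) := by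
      rw [← Equiv.sum_comp σ, Fintype.sum_prod_type]
      refine Finset.sum_congr rfl fun l _ => ?_
      rw [Fintype.sum_prod_type]
      refine Finset.sum_congr rfl fun j _ => ?_
      refine Finset.sum_congr rfl fun β _ => ?_
      rw [Equiv.symm_apply_apply]
    rw [h1, Finset.mul_sum, ← Finset.sum_add_distrib]
    refine Finset.sum_congr rfl fun l _ => ?_
    rw [pev_eq_sum (r a l) (hr a l), Finset.sum_mul, Finset.mul_sum, ← Finset.sum_add_distrib]
    refine Finset.sum_congr rfl fun j _ => ?_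
    rw [hγ ((r a l).coeff j) (ξ e), add_mul, add_mul, Finset.sum_mul, Finset.sum_mul]
    congr 1
    · refine Finset.sum_congr rfl fun β _ => ?_
      ring
    · ring
  rw [hmat]
  exact main

end Pool.Agent.LRG.H6
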